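import Mathlib

/-! # Finite probability: averages over fibres, relative entropy, affinity -/

set_option autoImplicit false

namespace Pool.Agent.N932.RP

open scoped Classical

section fibres

variable {ι α β : Type*}

/-- the number of elements of `S` in the class of `ω` -/
noncomputable def cl (S : Finset ι) (X : ι → α) (ω : ι) : ℝ :=
  ((S.filter (fun η => X η = X ω)).card : ℝ)

/-- the number of elements of `S` in the class of `ω` with `Y = ζ` -/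
noncomputable def cl2 (S : Finset ι) (X : ι → α) (Y : ι → β) (ω : ι) (ζ : β) : ℝ :=
  ((S.filter (fun η => X η = X ω ∧ Y η = ζ)).card : ℝ)

/-- the conditional law of `Y` given `X` -/
noncomputable def cond (S : Finset ι) (X : ι → α) (Y : ι → β) (ω : ι) (ζ : β) : ℝ :=
  cl2 S X Y ω ζ / cl S X ω

theorem cl_pos {S : Finset ι} {X : ι → α} {ω : ι} (h : ω ∈ S) : 0 < cl S X ω := by
  unfold cl
  rw [Nat.cast_pos, Finset.card_pos]
  exact ⟨ω, Finset.mem_filter.2 ⟨h, rfl⟩⟩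

theorem cl_congr {S : Finset ι} {X : ι → α} {ω η : ι} (h : X ω = X η) : cl S X ω = cl S X η := by
  unfold cl
  rw [h]

theorem cl2_congr {S : Finset ι} {X : ι → α} {Y : ι → β} {ω η : ι} (h : X ω = X η) (ζ : β) :
    cl2 S X Y ω ζ = cl2 S X Y η ζ := by
  unfold cl2
  rw [h]

theorem cl_ncard (S : Finset ι) (X : ι → α) (ω : ι) :
    cl S X ω = (({η | η ∈ S ∧ X η = X ω} : Set ι).ncard : ℝ) := by
  unfold cl
  rw [← Set.ncard_coe_finset]
  congr 2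
  ext η
  rw [Finset.mem_coe, Finset.mem_filter]
  rfl

theorem cl2_ncard (S : Finset ι) (X : ι → α) (Y : ι → β) (ω : ι) (ζ : β) :
    cl2 S X Y ω ζ = (({η | η ∈ S ∧ X η = X ω ∧ Y η = ζ} : Set ι).ncard : ℝ) := by
  unfold cl2
  rw [← Set.ncard_coe_finset]
  congr 2
  ext η
  rw [Finset.mem_coe, Finset.mem_filter]
  rfl

theorem cl2_pos_iff {S : Finset ι} {X : ι → α} {Y : ι → β} {ω : ι} {ζ : β} :
    0 < cl2 S X Y ω ζ ↔ ∃ η ∈ S, X η = X ω ∧ Y η = ζ := by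
  unfold cl2
  rw [Nat.cast_pos, Finset.card_pos]
  constructor
  · rintro ⟨η, hη⟩
    rw [Finset.mem_filter] at hη
    exact ⟨η, hη.1, hη.2⟩
  · rintro ⟨η, h1, h2⟩
    exact ⟨η, Finset.mem_filter.2 ⟨h1, h2⟩⟩

theorem cond_pos_iff {S : Finset ι} {X : ι → α} {Y : ι → β} {ω : ι} {ζ : β} (h : ω ∈ S) :
    0 < cond S X Y ω ζ ↔ ∃ η ∈ S, X η = X ω ∧ Y η = ζ := by
  rw [← cl2_pos_iff]
  unfold cond
  have h1 := cl_pos (X := X) h
  constructor
  · intro h2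
    by_contra hcon
    have h0 : 0 ≤ cl2 S X Y ω ζ := by unfold cl2; positivity
    have h3 : cl2 S X Y ω ζ = 0 := by linarith
    rw [h3, zero_div] at h2
    exact lt_irrefl _ h2
  · intro h2
    exact div_pos h2 h1

theorem cl_eq_card {S : Finset ι} {X : ι → α} {ω : ι} (h : ∀ η ∈ S, X η = X ω) :
    cl S X ω = S.card := by
  unfold cl
  rw [Finset.filter_true_of_mem h]

theorem cl_eq_one {S : Finset ι} {X : ι → α} {ω : ι} (hω : ω ∈ S)
    (h : ∀ η ∈ S, X η = X ω → η = ω) : cl S X ω = 1 := by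
  unfold cl
  have : S.filter (fun η => X η = X ω) = {ω} := by
    ext η
    rw [Finset.mem_filter, Finset.mem_singleton]
    constructor
    · rintro ⟨h1, h2⟩
      exact h η h1 h2
    · rintro rfl
      exact ⟨hω, rfl⟩
  rw [this]
  simp

theorem cl_le_of_inj {ι' α' : Type*} {S : Finset ι} {X : ι → α} {ω : ι} {S' : Finset ι'}
    {X' : ι' → α'} {ω' : ι'} (f : ι → ι')
    (hf : ∀ η ∈ S, X η = X ω → f η ∈ S' ∧ X' (f η) = X' ω')
    (hinj : ∀ η ∈ S, X η = X ω → ∀ η' ∈ S, X η' = X ω → f η = f η' → η = η') :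
    cl S X ω ≤ cl S' X' ω' := by
  unfold cl
  rw [Nat.cast_le]
  refine Finset.card_le_card_of_injOn f ?_ ?_
  · intro η hη
    rw [Finset.mem_coe, Finset.mem_filter] at hη ⊢
    exact hf η hη.1 hη.2
  · intro η hη η' hη' e
    rw [Finset.mem_coe, Finset.mem_filter] at hη hη'
    exact hinj η hη.1 hη.2 η' hη'.1 hη'.2 e

theorem cond_self {γ : Type*} {S : Finset ι} {X : ι → α} {Y : ι → β} {Z : ι → γ} {ω : ι}
    (h : ∀ η ∈ S, (Z η = Z ω ↔ X η = X ω ∧ Y η = Y ω)) :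
    cond S X Y ω (Y ω) = cl S Z ω / cl S X ω := by
  unfold cond cl2 cl
  congr 3
  ext η
  rw [Finset.mem_filter, Finset.mem_filter]
  constructor
  · rintro ⟨h1, h2⟩
    exact ⟨h1, (h η h1).2 h2⟩
  · rintro ⟨h1, h2⟩
    exact ⟨h1, (h η h1).1 h2⟩

/-- sums over the fibres of `Y` -/
theorem sum_cl2 {S : Finset ι} {T : Finset β} {X : ι → α} {Y : ι → β}
    (hY : ∀ ω ∈ S, Y ω ∈ T) (f : β → ℝ) (ω : ι) :
    ∑ ζ ∈ T, cl2 S X Y ω ζ * f ζ = ∑ η ∈ S.filter (fun η => X η = X ω), f (Y η) := by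
  rw [← Finset.sum_fiberwise_of_maps_to (s := S.filter (fun η => X η = X ω)) (t := T) (g := Y)
    (fun η hη => hY η (Finset.mem_filter.1 hη).1)]
  refine Finset.sum_congr rfl (fun ζ _ => ?_)
  rw [Finset.filter_filter]
  have : ∑ i ∈ S.filter (fun a => X a = X ω ∧ Y a = ζ), f (Y i) =
      ∑ _i ∈ S.filter (fun a => X a = X ω ∧ Y a = ζ), f ζ := by
    refine Finset.sum_congr rfl (fun i hi => ?_)
    rw [(Finset.mem_filter.1 hi).2.2]
  rw [this, Finset.sum_const, nsmul_eq_mul]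
  rfl

theorem sum_cond {S : Finset ι} {T : Finset β} {X : ι → α} {Y : ι → β}
    (hY : ∀ ω ∈ S, Y ω ∈ T) {ω : ι} (hω : 0 < cl S X ω) : ∑ ζ ∈ T, cond S X Y ω ζ = 1 := by
  have h := sum_cl2 hY (X := X) (fun _ => (1 : ℝ)) ω
  simp only [mul_one, Finset.sum_const, nsmul_eq_mul] at h
  unfold cond
  rw [← Finset.sum_div, h]
  exact div_self hω.ne'

theorem cond_nonneg (S : Finset ι) (X : ι → α) (Y : ι → β) (ω : ι) (ζ : β) :
    0 ≤ cond S X Y ω ζ := by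
  unfold cond cl2 cl
  positivity

/-- averaging first over the conditional law -/
theorem avg_fiber {S : Finset ι} {T : Finset β} {X : ι → α} {Y : ι → β}
    (hY : ∀ ω ∈ S, Y ω ∈ T) (φ : ι → β → ℝ)
    (hφ : ∀ ω ∈ S, ∀ η ∈ S, X η = X ω → ∀ ζ, φ η ζ = φ ω ζ) :
    ∑ ω ∈ S, ∑ ζ ∈ T, cond S X Y ω ζ * φ ω ζ = ∑ ω ∈ S, φ ω (Y ω) := by
  have h1 : ∀ ω ∈ S, ∑ ζ ∈ T, cond S X Y ω ζ * φ ω ζ =
      ∑ η ∈ S, if X η = X ω then φ η (Y η) / cl S X η else 0 := by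
    intro ω hω
    have h2 := sum_cl2 hY (X := X) (φ ω) ω
    have h3 : ∑ ζ ∈ T, cond S X Y ω ζ * φ ω ζ = (∑ ζ ∈ T, cl2 S X Y ω ζ * φ ω ζ) / cl S X ω := by
      rw [Finset.sum_div]
      refine Finset.sum_congr rfl (fun ζ _ => ?_)
      unfold cond
      ring
    rw [h3, h2, Finset.sum_div, Finset.sum_filter]
    refine Finset.sum_congr rfl (fun η hη => ?_)
    by_cases h : X η = X ω
    · rw [if_pos h, if_pos h, hφ ω hω η hη h, cl_congr h]
    · rw [if_neg h, if_neg h]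
  rw [Finset.sum_congr rfl h1, Finset.sum_comm]
  refine Finset.sum_congr rfl (fun η hη => ?_)
  rw [← Finset.sum_filter, Finset.sum_const, nsmul_eq_mul]
  have h4 : ((S.filter (fun ω => X η = X ω)).card : ℝ) = cl S X η := by
    unfold cl
    congr 2
    ext ω
    simp only [Finset.mem_filter, eq_comm]
  rw [h4]
  have := cl_pos (X := X) hη
  field_simp

/-- the sum of the inverse class sizes is the number of classes -/
theorem sum_inv_cl {S : Finset ι} {U : Finset α} {X : ι → α} (hX : ∀ ω ∈ S, X ω ∈ U) :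
    ∑ ω ∈ S, 1 / cl S X ω ≤ U.card := by
  rw [← Finset.sum_fiberwise_of_maps_to (s := S) (t := U) (g := X) hX]
  have : ∀ x ∈ U, ∑ ω ∈ S.filter (fun ω => X ω = x), 1 / cl S X ω ≤ 1 := by
    intro x _
    have h1 : ∀ ω ∈ S.filter (fun ω => X ω = x), 1 / cl S X ω =
        1 / ((S.filter (fun ω => X ω = x)).card : ℝ) := by
      intro ω hω
      unfold cl
      rw [(Finset.mem_filter.1 hω).2]
    rw [Finset.sum_congr rfl h1, Finset.sum_const, nsmul_eq_mul]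
    rcases eq_or_ne (((S.filter (fun ω => X ω = x)).card : ℝ)) 0 with h0 | h0
    · rw [h0]; simp
    · rw [mul_one_div_cancel h0]
  calc _ ≤ ∑ _x ∈ U, (1 : ℝ) := Finset.sum_le_sum this
    _ = _ := by simp

end fibres

section laws

variable {β : Type*}

/-- relative entropy -/
noncomputable def kl (T : Finset β) (p q : β → ℝ) : ℝ := ∑ ζ ∈ T, p ζ * Real.log (p ζ / q ζ)

/-- total variation distance -/
noncomputable def tv (T : Finset β) (p q : β → ℝ) : ℝ := 1 / 2 * ∑ ζ ∈ T, |p ζ - q ζ|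

/-- affinity -/
noncomputable def af (T : Finset β) (p q : β → ℝ) : ℝ := ∑ ζ ∈ T, Real.sqrt (p ζ * q ζ)

theorem tv_nonneg (T : Finset β) (p q : β → ℝ) : 0 ≤ tv T p q := by
  unfold tv
  have := Finset.sum_nonneg (fun ζ (_ : ζ ∈ T) => abs_nonneg (p ζ - q ζ))
  positivity

theorem tv_sq_le_af {T : Finset β} {p q : β → ℝ} (hp : ∀ ζ, 0 ≤ p ζ) (hq : ∀ ζ, 0 ≤ q ζ)
    (hp1 : ∑ ζ ∈ T, p ζ = 1) (hq1 : ∑ ζ ∈ T, q ζ = 1) :
    tv T p q ^ 2 ≤ 1 - af T p q ^ 2 := by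
  have h5 : ∑ y ∈ T, |p y - q y| =
      ∑ y ∈ T, |Real.sqrt (p y) - Real.sqrt (q y)| * (Real.sqrt (p y) + Real.sqrt (q y)) := by
    apply Finset.sum_congr rfl
    intro y _
    have e3 : 0 ≤ Real.sqrt (p y) + Real.sqrt (q y) := by positivity
    rw [← abs_of_nonneg e3, ← abs_mul]
    congr 1
    ring_nf
    rw [Real.sq_sqrt (hp y), Real.sq_sqrt (hq y)]
  have h6 : ∑ y ∈ T, |Real.sqrt (p y) - Real.sqrt (q y)| ^ 2 = 2 - 2 * af T p q := by
    have : ∀ y ∈ T, |Real.sqrt (p y) - Real.sqrt (q y)| ^ 2 =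
        p y + q y - 2 * Real.sqrt (p y * q y) := by
      intro y _
      rw [sq_abs, Real.sqrt_mul (hp y)]
      have e1 := Real.sq_sqrt (hp y)
      have e2 := Real.sq_sqrt (hq y)
      ring_nf
      rw [e1, e2]
    rw [Finset.sum_congr rfl this, Finset.sum_sub_distrib, Finset.sum_add_distrib, hp1, hq1,
      ← Finset.mul_sum]
    unfold af
    ring
  have h7 : ∑ y ∈ T, (Real.sqrt (p y) + Real.sqrt (q y)) ^ 2 = 2 + 2 * af T p q := by
    have : ∀ y ∈ T, (Real.sqrt (p y) + Real.sqrt (q y)) ^ 2 =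
        p y + q y + 2 * Real.sqrt (p y * q y) := by
      intro y _
      rw [Real.sqrt_mul (hp y)]
      have e1 := Real.sq_sqrt (hp y)
      have e2 := Real.sq_sqrt (hq y)
      ring_nf
      rw [e1, e2]
    rw [Finset.sum_congr rfl this, Finset.sum_add_distrib, Finset.sum_add_distrib, hp1, hq1,
      ← Finset.mul_sum]
    unfold af
    ring
  have h8 := Finset.sum_mul_sq_le_sq_mul_sq T (fun y => |Real.sqrt (p y) - Real.sqrt (q y)|)
    (fun y => Real.sqrt (p y) + Real.sqrt (q y))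
  rw [← h5, h6, h7] at h8
  unfold tv
  nlinarith

theorem af_nonneg (T : Finset β) (p q : β → ℝ) : 0 ≤ af T p q :=
  Finset.sum_nonneg (fun _ _ => Real.sqrt_nonneg _)

/-- `BC ≤ exp (- TV² / 2)` -/
theorem af_le {T : Finset β} {p q : β → ℝ} (hp : ∀ ζ, 0 ≤ p ζ) (hq : ∀ ζ, 0 ≤ q ζ)
    (hp1 : ∑ ζ ∈ T, p ζ = 1) (hq1 : ∑ ζ ∈ T, q ζ = 1) :
    af T p q ≤ Real.exp (-(tv T p q ^ 2 / 2)) := by
  have h1 := tv_sq_le_af hp hq hp1 hq1
  have h2 := Real.add_one_le_exp (-(tv T p q ^ 2))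
  have h3 : af T p q ^ 2 ≤ Real.exp (-(tv T p q ^ 2 / 2)) ^ 2 := by
    rw [← Real.exp_nat_mul]
    have : ((2 : ℕ) : ℝ) * -(tv T p q ^ 2 / 2) = -(tv T p q ^ 2) := by push_cast; ring
    rw [this]
    linarith
  exact le_of_sq_le_sq h3 (Real.exp_pos _).le

theorem kl_elem {a b : ℝ} (ha : 0 ≤ a) (hb : 0 ≤ b) (hab : 0 < a → 0 < b) :
    2 * a - 2 * Real.sqrt (a * b) ≤ a * Real.log (a / b) := by
  rcases ha.eq_or_lt with h | h
  · rw [← h]; simp
  · have hb' := hab h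
    have hsa := Real.sqrt_pos.2 h
    have hsb := Real.sqrt_pos.2 hb'
    have h1 := Real.log_le_sub_one_of_pos (div_pos hsb hsa)
    rw [Real.log_div hsb.ne' hsa.ne', Real.log_sqrt hb, Real.log_sqrt ha] at h1
    have h2 : a * (Real.sqrt b / Real.sqrt a) = Real.sqrt a * Real.sqrt b := by
      rw [mul_div_assoc', div_eq_iff hsa.ne']
      have := Real.mul_self_sqrt ha
      calc a * Real.sqrt b = (Real.sqrt a * Real.sqrt a) * Real.sqrt b := by rw [this]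
        _ = _ := by ring
    rw [Real.log_div h.ne' hb'.ne', Real.sqrt_mul ha]
    nlinarith

/-- Pinsker's inequality (with constant `1`) -/
theorem tv_sq_le_kl {T : Finset β} {p q : β → ℝ} (hp : ∀ ζ, 0 ≤ p ζ) (hq : ∀ ζ, 0 ≤ q ζ)
    (hpq : ∀ ζ, 0 < p ζ → 0 < q ζ) (hp1 : ∑ ζ ∈ T, p ζ = 1) (hq1 : ∑ ζ ∈ T, q ζ = 1) :
    tv T p q ^ 2 ≤ kl T p q := by
  have h1 : ∑ ζ ∈ T, (2 * p ζ - 2 * Real.sqrt (p ζ * q ζ)) ≤ kl T p q :=
    Finset.sum_le_sum (fun ζ _ => kl_elem (hp ζ) (hq ζ) (hpq ζ))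
  rw [Finset.sum_sub_distrib, ← Finset.mul_sum, ← Finset.mul_sum, hp1] at h1
  have h2 := tv_sq_le_af hp hq hp1 hq1
  have h3 := af_nonneg T p q
  have h4 : af T p q = ∑ ζ ∈ T, Real.sqrt (p ζ * q ζ) := rfl
  rw [← h4] at h1
  nlinarith [sq_nonneg (1 - af T p q)]

theorem kl_nonneg {T : Finset β} {p q : β → ℝ} (hp : ∀ ζ, 0 ≤ p ζ) (hq : ∀ ζ, 0 ≤ q ζ)
    (hpq : ∀ ζ, 0 < p ζ → 0 < q ζ) (hp1 : ∑ ζ ∈ T, p ζ = 1) (hq1 : ∑ ζ ∈ T, q ζ = 1) :
    0 ≤ kl T p q := (sq_nonneg _).trans (tv_sq_le_kl hp hq hpq hp1 hq1)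

theorem af_pos {T : Finset β} {p q : β → ℝ}
    (hpq : ∀ ζ, 0 < p ζ → 0 < q ζ) (hp1 : ∑ ζ ∈ T, p ζ = 1) : 0 < af T p q := by
  obtain ⟨ζ, hζ, h⟩ : ∃ ζ ∈ T, 0 < p ζ := by
    by_contra hcon
    push Not at hcon
    have : ∑ ζ ∈ T, p ζ ≤ 0 := Finset.sum_nonpos hcon
    linarith
  refine Finset.sum_pos' (fun _ _ => Real.sqrt_nonneg _) ⟨ζ, hζ, ?_⟩
  exact Real.sqrt_pos.2 (mul_pos h (hpq ζ h))

end laws

/-- Jensen's inequality for the logarithm -/
theorem jensen_log {ι : Type*} (S : Finset ι) (hS : S.Nonempty) (g : ι → ℝ)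
    (hg : ∀ ω ∈ S, 0 < g ω) {Z : ℝ} (hZ : ∑ ω ∈ S, g ω ≤ Z) :
    ∑ ω ∈ S, Real.log (g ω) ≤ S.card * Real.log (Z / S.card) := by
  have hc : (0 : ℝ) < S.card := by exact_mod_cast Finset.card_pos.2 hS
  have hs : 0 < ∑ ω ∈ S, g ω := Finset.sum_pos hg hS
  have hZ0 : 0 < Z := hs.trans_le hZ
  have h1 : ∀ ω ∈ S, Real.log (g ω) ≤ g ω * (S.card / Z) - 1 + Real.log (Z / S.card) := by
    intro ω hω
    have h2 := Real.log_le_sub_one_of_pos (mul_pos (hg ω hω) (div_pos hc hZ0))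
    rw [Real.log_mul (hg ω hω).ne' (div_pos hc hZ0).ne', Real.log_div hc.ne' hZ0.ne'] at h2
    rw [Real.log_div hZ0.ne' hc.ne']
    linarith
  refine (Finset.sum_le_sum h1).trans ?_
  rw [Finset.sum_add_distrib, Finset.sum_sub_distrib, ← Finset.sum_mul, Finset.sum_const,
    Finset.sum_const, nsmul_eq_mul, nsmul_eq_mul, mul_one]
  have h3 : (∑ ω ∈ S, g ω) * (S.card / Z) ≤ S.card := by
    rw [mul_div_assoc', div_le_iff₀ hZ0, mul_comm]
    exact mul_le_mul_of_nonneg_left hZ hc.le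
  linarith

end Pool.Agent.N932.RP
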